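import Pool.Agent.Lib.MP_acafa7_al.MS.Iface1

/-! Module DelV: deletion of a vertex (induction on the number of triangles). -/

namespace MSG.H23

open Classical

theorem list_lift {α β : Type} (j : α → β) (l : List β) (h : ∀ x ∈ l, ∃ y, j y = x) :
    ∃ l' : List α, l'.map j = l := by
  induction l with
  | nil => exact ⟨[], rfl⟩
  | cons b l ih =>
    obtain ⟨y, hy⟩ := h b (by simp)
    obtain ⟨l', hl'⟩ := ih (fun x hx => h x (by simp [hx]))
    exact ⟨y :: l', by simp [hy, hl']⟩

theorem rot_one {α : Type} (x : α) (l : List α) : (x :: l).rotate 1 = l ++ [x] := by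
  simp

theorem face_rot {D : Type} (M : DMap D) (x : D) (l : List D) :
    M.IsFace (x :: l) ↔ M.IsFace (l ++ [x]) := by
  have e1 : (l ++ [x]).map M.φ = ((x :: l).map M.φ).rotate 1 := by
    rw [← rot_one, List.map_rotate]
  have e2 : (l ++ [x]).rotate 1 = ((x :: l).rotate 1).rotate 1 := by
    rw [rot_one]
  unfold DMap.IsFace
  constructor
  · rintro ⟨_, h2, h3⟩
    refine ⟨by simp, ?_, ?_⟩
    · rw [← rot_one]; exact List.nodup_rotate.2 h2
    · rw [e1, e2, h3]
  · rintro ⟨_, h2, h3⟩
    refine ⟨by simp, ?_, ?_⟩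
    · rw [← rot_one] at h2; exact List.nodup_rotate.1 h2
    · rw [e1, e2] at h3
      exact List.rotate_injective 1 h3

theorem hol_rot {V D : Type} {a : Equiv.Perm V} (M : LMap V D a) (x : D) (l : List D) :
    M.hol (l ++ [x]) = M.hol (x :: l) := by
  unfold LMap.hol
  simp [add_comm]

/-- equation of a face with at least two darts -/
theorem face_eq {D : Type} {M : DMap D} {i o : D} {rest : List D} (h : M.IsFace (i :: o :: rest)) :
    M.φ i = o ∧ (o :: rest).map M.φ = rest ++ [i] := by
  have h3 := h.2.2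
  rw [rot_one] at h3
  simp only [List.map_cons, List.cons_append, List.cons.injEq] at h3
  exact ⟨h3.1, by simpa using h3.2⟩

theorem face_mem {D : Type} {M : DMap D} {l : List D} (h : M.IsFace l) {x : D} (hx : x ∈ l) :
    M.φ x ∈ l := by
  have : M.φ x ∈ l.map M.φ := List.mem_map_of_mem hx
  rw [h.2.2] at this
  exact List.mem_rotate.1 this

theorem face_mem' {D : Type} {M : DMap D} {l : List D} (h : M.IsFace l) {x : D} (hx : M.φ x ∈ l) :
    x ∈ l := by
  have : M.φ x ∈ l.rotate 1 := List.mem_rotate.2 hx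
  rw [← h.2.2] at this
  obtain ⟨y, hy, hxy⟩ := List.mem_map.1 this
  rwa [← M.φ.injective hxy]

structure Hyp {V D : Type} {a : Equiv.Perm V} (M : LMap V D a) (i o : D) (rest : List D) (k : ℕ)
    (s : ℕ → D) : Prop where
  face : M.IsFace (i :: o :: rest)
  s0 : s 0 = M.ι i
  sk : s k = o
  tri : ∀ j, j < k → M.Tri (s j)
  nxt : ∀ j, j < k → s (j + 1) = M.ι (M.φ (M.φ (s j)))
  nf : ∀ j, j < k → s j ∉ i :: o :: rest
  inj : ∀ j j', j ≤ k → j' ≤ k → s j = s j' → j = j'
  h1 : ∀ j j', j ≤ k → j' ≤ k → s j ≠ M.ι (s j')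
  h2 : ∀ j j', j < k → j' ≤ k → M.φ (s j) ≠ s j'
  h3 : ∀ j j', j ≤ k → j' < k → M.φ (s j') ≠ M.ι (s j)

structure Res {V D D' : Type} {a : Equiv.Perm V} (M : LMap V D a) (i o : D)
    (rest : List D) (k : ℕ) (s : ℕ → D) (M' : LMap V D' a) (q : D' → D) (R' : List D') : Prop where
  inj : Function.Injective q
  rng : ∀ x, (∃ x', q x' = x) ↔ ∀ j, j ≤ k → x ≠ s j ∧ x ≠ M.ι (s j)
  face : M'.IsFace R'
  mapR : R'.map q = (List.range k).map (fun j => M.φ (s j)) ++ rest
  hol : M'.hol R' = M.hol (i :: o :: rest)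
  out : ∀ x, x ∉ R' → q (M'.φ x) = M.φ (q x) ∧ M'.h x = M.h (q x)
  lab : ∀ x, q (M'.ι x) = M.ι (q x) ∧ M'.f x = M.f (q x) ∧ M'.γ x = M.γ (q x)
  same : ∀ x y, M'.SameV x y ↔ M.SameV (q x) (q y)
  planar : M.Planar → M'.Planar
  zero : M.Zero → M'.Zero

theorem sum_ite_last {D : Type} (φ : D → D) (i : D) (l r : List D) (c : ℤ) (hl : l.map φ = r ++ [i])
    (hr : i ∉ r) (f : D → ℤ) :
    (l.map (fun z => if φ z = i then f z + c else f z)).sum = (l.map f).sum + c := by
  have e1 : (l.map (fun z => if φ z = i then f z + c else f z)).sum =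
      (l.map f).sum + (l.map (fun z => if φ z = i then c else 0)).sum := by
    rw [← List.sum_map_add]
    congr 1
    apply List.map_congr_left
    intro z _
    split_ifs <;> simp
  have e2 : l.map (fun z => if φ z = i then c else 0) =
      (l.map φ).map (fun w => if w = i then c else 0) := by
    rw [List.map_map]; rfl
  have e3 : (r.map (fun w => if w = i then c else (0 : ℤ))).sum = 0 := by
    apply List.sum_eq_zero
    intro x hx
    obtain ⟨w, hw, rfl⟩ := List.mem_map.1 hx
    have : w ≠ i := fun h => hr (h ▸ hw)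
    simp [this]
  rw [e1, e2, hl, List.map_append, List.sum_append, e3]
  simp

theorem base (hhair : HairStatement) {V D : Type} [Fintype D] {a : Equiv.Perm V}
    (hfree : ∀ (x : V) (n : ℤ), (a ^ n) x = x → n = 0)
    (M : LMap V D a) (i o : D) (rest : List D) (s : ℕ → D) (H : Hyp M i o rest 0 s)
    (hrest : rest ≠ []) :
    ∃ (D' : Type) (_ : Fintype D') (M' : LMap V D' a) (q : D' → D) (R' : List D'),
      Res M i o rest 0 s M' q R' := by
  obtain ⟨hi, hor⟩ := face_eq H.face
  have hnd := H.face.2.1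
  have hio : M.ι i = o := by rw [← H.s0, H.sk]
  have hiι : M.ι o = i := by rw [← hio, M.ιι]
  have hne_io : i ≠ o := by
    intro h; rw [h] at hnd; simp at hnd
  have hirest : i ∉ rest := by
    intro h; rw [List.nodup_cons] at hnd; exact hnd.1 (by simp [h])
  have horest : o ∉ rest := by
    intro h; rw [List.nodup_cons, List.nodup_cons] at hnd; exact hnd.2.1 h
  obtain ⟨r0, rs, rfl⟩ := List.exists_cons_of_ne_nil hrest
  have hφo : M.φ o = r0 := by simpa using congrArg List.head? hor
  have hrs : (r0 :: rs).map M.φ = rs ++ [i] := by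
    have := congrArg List.tail hor
    simpa using this
  have hr0i : r0 ≠ i := fun h => hirest (by simp [h])
  have hirs : i ∉ rs := fun h => hirest (by simp [h])
  have hh2 : M.φ (M.ι i) ≠ i := by rw [hio, hφo]; exact hr0i
  obtain ⟨D', fD', M', j, jinj, jrng, jφ, jι, jf, jγ, jh, jsame, jplanar⟩ :=
    hhair V D a hfree M i (by rw [hi, hio]) hh2
  rw [hio] at jrng jφ
  have hlift : ∀ x ∈ r0 :: rs, ∃ y, j y = x := by
    intro x hx
    exact (jrng x).2 ⟨fun h => hirest (h ▸ hx), fun h => horest (h ▸ hx)⟩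
  obtain ⟨R', hR'⟩ := list_lift j _ hlift
  have key : R'.map (fun x => j (M'.φ x)) = (rs ++ [i]).map (fun w => if w = i then r0 else w) := by
    rw [← hrs, ← hR', List.map_map, List.map_map]
    apply List.map_congr_left
    intro x _
    simp only [Function.comp_apply, jφ, hφo]
  have key2 : (rs ++ [i]).map (fun w => if w = i then r0 else w) = rs ++ [r0] := by
    rw [List.map_append]
    congr 1
    · rw [List.map_congr_left (g := id), List.map_id]
      intro w hw
      have : w ≠ i := fun h => hirs (h ▸ hw)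
      simp [this]
    · simp
  have hface' : M'.IsFace R' := by
    refine ⟨?_, ?_, ?_⟩
    · rintro rfl; simp at hR'
    · apply List.Nodup.of_map j
      rw [hR']
      exact hnd.of_cons.of_cons
    · apply (List.map_injective_iff.2 jinj)
      rw [List.map_map, List.map_rotate, hR', rot_one]
      exact key.trans key2
  refine ⟨D', fD', M', j, R', jinj, ?_, hface', ?_, ?_, ?_, ?_, jsame, jplanar, ?_⟩
  · intro x
    rw [jrng x]
    constructor
    · rintro ⟨h1, h2⟩ n hn
      obtain rfl : n = 0 := by omega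
      rw [H.s0, hio, hiι]
      exact ⟨h2, h1⟩
    · intro h
      have := h 0 le_rfl
      rw [H.s0, hio, hiι] at this
      exact ⟨this.2, this.1⟩
  · simp [hR']
  · -- holonomy
    have e1 : M'.hol R' = ((r0 :: rs).map (fun z => if M.φ z = i then M.h z + (M.h i + M.h o)
        else M.h z)).sum := by
      unfold LMap.hol
      rw [← hR', List.map_map]
      congr 1
      apply List.map_congr_left
      intro x _
      simp only [Function.comp_apply, jh, hi]
      split_ifs <;> ring
    rw [e1, sum_ite_last M.φ i _ _ _ hrs hirs]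
    unfold LMap.hol
    simp only [List.map_cons, List.sum_cons]
    ring
  · intro x hx
    have hne : M.φ (j x) ≠ i := by
      intro h
      have h1 : j x ∈ i :: o :: r0 :: rs := face_mem' H.face (by rw [h]; simp)
      have h2 := (jrng (j x)).1 ⟨x, rfl⟩
      have h3 : j x ∈ r0 :: rs := by
        rcases List.mem_cons.1 h1 with h' | h'
        · exact absurd h' h2.1
        · rcases List.mem_cons.1 h' with h'' | h''
          · exact absurd h'' h2.2
          · exact h''
      rw [← hR'] at h3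
      obtain ⟨y, hy, hyx⟩ := List.mem_map.1 h3
      exact hx (jinj hyx ▸ hy)
    rw [jφ, jh, if_neg hne, if_neg hne]
    exact ⟨rfl, rfl⟩
  · intro x; exact ⟨jι x, jf x, jγ x⟩
  · intro hz x
    rw [jγ, jh]
    refine ⟨(hz _).1, ?_⟩
    simp [(hz _).2]

theorem step (habs : AbsStatement) {V D : Type} [Fintype D] {a : Equiv.Perm V}
    (M : LMap V D a) (i o : D) (rest : List D) (k : ℕ) (s : ℕ → D)
    (H : Hyp M i o rest (k + 1) s) :
    ∃ (D1 : Type) (_ : Fintype D1) (M1 : LMap V D1 a) (x0 x1 x2 : D1)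
      (R2 : List D1) (s1 : ℕ → D1), Hyp M1 x1 x2 (R2 ++ [x0]) k s1 ∧
      ∀ (D' : Type) (_ : Fintype D') (M' : LMap V D' a) (q : D' → D1) (R' : List D'),
        Res M1 x1 x2 (R2 ++ [x0]) k s1 M' q R' →
        ∃ (q' : D' → D) (R'' : List D'), Res M i o rest (k + 1) s M' q' R'' := by
  obtain ⟨hi, hor⟩ := face_eq H.face
  have hnd := H.face.2.1
  have hne_io : i ≠ o := by
    intro h; rw [h] at hnd; simp at hnd
  have hirest : i ∉ rest := by
    intro h; rw [List.nodup_cons] at hnd; exact hnd.1 (by simp [h])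
  have horest : o ∉ rest := by
    intro h; rw [List.nodup_cons, List.nodup_cons] at hnd; exact hnd.2.1 h
  have hιi : M.ι i = s 0 := H.s0.symm
  have hιs0 : M.ι (s 0) = i := by rw [H.s0, M.ιι]
  have ht0 := H.tri 0 (by omega)
  have hnf0 : s 0 ∉ i :: o :: rest := H.nf 0 (by omega)
  have hs0i : s 0 ≠ i := fun h => hnf0 (by simp [h])
  have hs0o : s 0 ≠ o := fun h => hnf0 (by simp [h])
  have hs1 : M.φ (M.φ (s 0)) = M.ι (s 1) := by rw [H.nxt 0 (by omega), M.ιι]
  have hφs0 : M.φ (s 0) ∉ i :: o :: rest := fun h => hnf0 (face_mem' H.face h)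
  have hφφs0 : M.φ (M.φ (s 0)) ∉ i :: o :: rest := fun h => hφs0 (face_mem' H.face h)
  have hφs0i : M.φ (s 0) ≠ i := fun h => hφs0 (by simp [h])
  have hφφs0i : M.φ (M.φ (s 0)) ≠ i := fun h => hφφs0 (by simp [h])
  have hφs0s0 : M.φ (s 0) ≠ s 0 := ht0.1.2
  have hφφs0s0 : M.φ (M.φ (s 0)) ≠ s 0 := by
    intro h
    have h' := ht0.1.1
    rw [h] at h'
    exact hφs0s0 h'
  have hφφφ : M.φ (M.φ (M.φ (s 0))) = s 0 := ht0.1.1
  obtain ⟨D1, fD1, M1, j, jinj, jrng, jφ, jι, jf, jγ, jh, jsame, jplanar⟩ :=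
    habs V D a M i (by rw [hιi]; exact ht0) (by rw [hιi]; exact hφs0i.symm)
      (by rw [hιi]; exact hφφs0i.symm)
  have hφii : M.φ i ≠ i := by rw [hi]; exact hne_io.symm
  simp only [hιi, hi, if_neg hne_io.symm] at jrng jφ jh
  -- the lifts
  obtain ⟨x0, hx0⟩ := (jrng (M.φ (s 0))).2 ⟨hφs0i, hφs0s0⟩
  obtain ⟨x1, hx1⟩ := (jrng (M.φ (M.φ (s 0)))).2 ⟨hφφs0i, hφφs0s0⟩
  obtain ⟨x2, hx2⟩ := (jrng o).2 ⟨hne_io.symm, hs0o.symm⟩
  have hlift : ∀ x ∈ rest, ∃ y, j y = x := by
    intro x hx
    exact (jrng x).2 ⟨fun h => hirest (h ▸ hx), fun h => hnf0 (by rw [← h]; simp [hx])⟩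
  obtain ⟨R2, hR2⟩ := list_lift j _ hlift
  have hsl : ∀ n, ∃ y, n ≤ k → j y = s (n + 1) := by
    intro n
    by_cases hn : n ≤ k
    · obtain ⟨y, hy⟩ := (jrng (s (n + 1))).2 ⟨by
        rw [← hιs0]; exact H.h1 _ _ (by omega) (by omega), by
        intro h
        have := H.inj _ _ (by omega) (by omega) h
        omega⟩
      exact ⟨y, fun _ => hy⟩
    · exact ⟨x0, fun h => absurd h hn⟩
  choose s1 hs1' using hsl
  -- non-exceptional values of `φ`
  have jφ' : ∀ x, M.φ (j x) ≠ i → M.φ (j x) ≠ s 0 → j (M1.φ x) = M.φ (j x) := by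
    intro x h h'
    rw [jφ, if_neg h, if_neg h']
  have jh' : ∀ x, M.φ (j x) ≠ i → M.φ (j x) ≠ s 0 → M1.h x = M.h (j x) := by
    intro x h h'
    rw [jh, if_neg h, if_neg h']
  -- the new face
  have hL : (x2 :: R2).map (fun x => j (M1.φ x)) = rest ++ [M.φ (s 0)] := by
    have key : (x2 :: R2).map (fun x => j (M1.φ x)) =
        (rest ++ [i]).map (fun w => if w = i then M.φ (s 0) else w) := by
      rw [← hor]
      have e : o :: rest = (x2 :: R2).map j := by rw [List.map_cons, hx2, hR2]
      rw [e, List.map_map, List.map_map]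
      apply List.map_congr_left
      intro x hx
      have hmem : j x ∈ i :: o :: rest := by
        have : j x ∈ (x2 :: R2).map j := List.mem_map_of_mem hx
        rw [← e] at this
        exact List.mem_cons_of_mem _ this
      have h0 : M.φ (j x) ≠ s 0 := fun h => hnf0 (by rw [← h]; exact face_mem H.face hmem)
      simp only [Function.comp_apply, jφ, if_neg h0]
    rw [key, List.map_append]
    congr 1
    · rw [List.map_congr_left (g := id), List.map_id]
      intro w hw
      have : w ≠ i := fun h => hirest (h ▸ hw)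
      simp [this]
    · simp
  have hφx0 : M1.φ x0 = x1 := by
    apply jinj
    rw [jφ' x0 (by rw [hx0]; exact hφφs0i) (by rw [hx0]; exact hφφs0s0), hx0, hx1]
  have hφx1 : M1.φ x1 = x2 := by
    apply jinj
    rw [jφ, hx1, hφφφ, if_neg hs0i, if_pos rfl, hx2]
  have hfaceR1 : M1.IsFace (x0 :: x1 :: x2 :: R2) := by
    refine ⟨by simp, ?_, ?_⟩
    · apply List.Nodup.of_map j
      simp only [List.map_cons, hx0, hx1, hx2, hR2]
      have h1 : (o :: rest).Nodup := hnd.of_cons
      refine List.nodup_cons.2 ⟨?_, List.nodup_cons.2 ⟨?_, h1⟩⟩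
      · intro h
        rcases List.mem_cons.1 h with h | h
        · exact hφs0s0 (M.φ.injective h).symm
        · exact hφs0 (List.mem_cons_of_mem _ h)
      · intro h
        exact hφφs0 (List.mem_cons_of_mem _ h)
    · apply (List.map_injective_iff.2 jinj)
      rw [List.map_map, List.map_rotate]
      have e : (x0 :: x1 :: x2 :: R2).map (j ∘ M1.φ) =
          j x1 :: j x2 :: (x2 :: R2).map (fun x => j (M1.φ x)) := by
        simp only [List.map_cons, Function.comp_apply, hφx0, hφx1]
        rfl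
      rw [e, hL]
      simp only [List.map_cons, hR2, rot_one, hx2, hx0]
      simp
  have hface1 : M1.IsFace (x1 :: x2 :: (R2 ++ [x0])) := by
    have := (face_rot M1.toDMap x0 (x1 :: x2 :: R2)).1 hfaceR1
    simpa using this
  -- holonomy
  have hhol : M1.hol (x0 :: x1 :: x2 :: R2) = M.hol (i :: o :: rest) := by
    have e1 : M1.hol (x2 :: R2) = ((o :: rest).map (fun z => if M.φ z = i then
        M.h z + (M.γ i + M.h (s 0)) else M.h z)).sum := by
      have e : o :: rest = (x2 :: R2).map j := by rw [List.map_cons, hx2, hR2]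
      unfold LMap.hol
      rw [e, List.map_map]
      congr 1
      apply List.map_congr_left
      intro x hx
      have hmem : j x ∈ i :: o :: rest := by
        have : j x ∈ (x2 :: R2).map j := List.mem_map_of_mem hx
        rw [← e] at this
        exact List.mem_cons_of_mem _ this
      have h0 : M.φ (j x) ≠ s 0 := fun h => hnf0 (by rw [← h]; exact face_mem H.face hmem)
      simp only [Function.comp_apply, jh, if_neg h0]
      split_ifs <;> ring
    rw [sum_ite_last M.φ i _ _ _ hor hirest] at e1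
    have e2 : M1.h x0 = M.h (M.φ (s 0)) := by
      rw [jh' x0 (by rw [hx0]; exact hφφs0i) (by rw [hx0]; exact hφφs0s0), hx0]
    have e3 : M1.h x1 = M.h (M.φ (M.φ (s 0))) - M.γ i + M.h i := by
      rw [jh, hx1, hφφφ, if_neg hs0i, if_pos rfl]
    have e4 : M1.hol (x0 :: x1 :: x2 :: R2) = M1.h x0 + M1.h x1 + M1.hol (x2 :: R2) := by
      unfold LMap.hol
      simp only [List.map_cons, List.sum_cons]
      ring
    have e5 := ht0.2
    rw [e4, e1, e2, e3]
    unfold LMap.hol
    simp only [List.map_cons, List.sum_cons] at e5 ⊢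
    linarith
  -- spokes
  have hsi : ∀ n, n ≤ k → M.ι (s (n + 1)) ≠ i := by
    intro n hn h
    have : s (n + 1) = s 0 := by
      rw [← hιi, ← h, M.ιι]
    have := H.inj _ _ (by omega) (by omega) this
    omega
  have hss : ∀ n, n ≤ k → M.ι (s (n + 1)) ≠ s 0 := by
    intro n hn h
    exact H.h1 0 (n + 1) (by omega) (by omega) h.symm
  have hsn : ∀ n, n ≤ k → s (n + 1) ≠ i := by
    intro n hn h
    rw [← hιs0] at h
    exact H.h1 _ _ (by omega) (by omega) h
  have hsn0 : ∀ n, n ≤ k → s (n + 1) ≠ s 0 := by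
    intro n hn h
    have := H.inj _ _ (by omega) (by omega) h
    omega
  have hφn : ∀ n, n < k → M.φ (s (n + 1)) ≠ i ∧ M.φ (s (n + 1)) ≠ s 0 := by
    intro n hn
    refine ⟨?_, H.h2 _ _ (by omega) (by omega)⟩
    rw [← hιs0]
    exact H.h3 _ _ (by omega) (by omega)
  have hφφn : ∀ n, n < k → M.φ (M.φ (s (n + 1))) ≠ i ∧ M.φ (M.φ (s (n + 1))) ≠ s 0 := by
    intro n hn
    have e : M.φ (M.φ (s (n + 1))) = M.ι (s (n + 1 + 1)) := by
      rw [H.nxt (n + 1) (by omega), M.ιι]
    rw [e]
    exact ⟨hsi (n + 1) (by omega), hss (n + 1) (by omega)⟩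
  have j1 : ∀ n, n < k → j (M1.φ (s1 n)) = M.φ (s (n + 1)) := by
    intro n hn
    have e := hs1' n (by omega)
    rw [jφ' _ (by rw [e]; exact (hφn n hn).1) (by rw [e]; exact (hφn n hn).2), e]
  have j2 : ∀ n, n < k → j (M1.φ (M1.φ (s1 n))) = M.φ (M.φ (s (n + 1))) := by
    intro n hn
    have e := j1 n hn
    rw [jφ' _ (by rw [e]; exact (hφφn n hn).1) (by rw [e]; exact (hφφn n hn).2), e]
  have j3 : ∀ n, n < k → j (M1.φ (M1.φ (M1.φ (s1 n)))) = s (n + 1) := by
    intro n hn
    have e := j2 n hn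
    have e' : M.φ (M.φ (M.φ (s (n + 1)))) = s (n + 1) := (H.tri (n + 1) (by omega)).1.1
    rw [jφ' _ (by rw [e, e']; exact hsn n (by omega)) (by rw [e, e']; exact hsn0 n (by omega)),
      e, e']
  have H1 : Hyp M1 x1 x2 (R2 ++ [x0]) k s1 := by
    refine ⟨hface1, ?_, ?_, ?_, ?_, ?_, ?_, ?_, ?_, ?_⟩
    · apply jinj
      rw [hs1' 0 (by omega), jι, hx1, hs1, M.ιι]
    · apply jinj
      rw [hs1' k le_rfl, hx2, H.sk]
    · intro n hn
      have hT := H.tri (n + 1) (by omega)
      refine ⟨⟨?_, ?_⟩, ?_⟩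
      · apply jinj
        rw [j3 n hn, hs1' n (by omega)]
      · intro h
        have := congrArg j h
        rw [j1 n hn, hs1' n (by omega)] at this
        exact hT.1.2 this
      · have e0 := hs1' n (by omega)
        have e1 := j1 n hn
        have e2 := j2 n hn
        have e' : M.φ (M.φ (M.φ (s (n + 1)))) = s (n + 1) := hT.1.1
        rw [jh' (s1 n) (by rw [e0]; exact (hφn n hn).1) (by rw [e0]; exact (hφn n hn).2),
          jh' (M1.φ (s1 n)) (by rw [e1]; exact (hφφn n hn).1) (by rw [e1]; exact (hφφn n hn).2),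
          jh' (M1.φ (M1.φ (s1 n))) (by rw [e2, e']; exact hsn n (by omega))
            (by rw [e2, e']; exact hsn0 n (by omega)), e0, e1, e2]
        exact hT.2
    · intro n hn
      apply jinj
      rw [hs1' (n + 1) (by omega), jι, j2 n hn]
      exact H.nxt (n + 1) (by omega)
    · intro n hn hmem
      have e0 := hs1' n (by omega)
      have hm : j (s1 n) ∈ (x1 :: x2 :: (R2 ++ [x0])).map j := List.mem_map_of_mem hmem
      simp only [List.map_cons, List.map_append, List.map_nil, hx0, hx1, hx2, hR2, e0,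
        List.mem_cons, List.mem_append, List.not_mem_nil, or_false] at hm
      rcases hm with h | h | h | h
      · rw [hs1] at h
        exact H.h1 (n + 1) 1 (by omega) (by omega) h
      · exact H.nf (n + 1) (by omega) (by simp [h])
      · exact H.nf (n + 1) (by omega) (by simp [h])
      · exact H.h2 0 (n + 1) (by omega) (by omega) h.symm
    · intro n n' hn hn' h
      have := congrArg j h
      rw [hs1' n hn, hs1' n' hn'] at this
      have := H.inj _ _ (by omega) (by omega) this
      omega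
    · intro n n' hn hn' h
      have := congrArg j h
      rw [jι, hs1' n hn, hs1' n' hn'] at this
      exact H.h1 _ _ (by omega) (by omega) this
    · intro n n' hn hn' h
      have := congrArg j h
      rw [j1 n hn, hs1' n' hn'] at this
      exact H.h2 _ _ (by omega) (by omega) this
    · intro n n' hn hn' h
      have := congrArg j h
      rw [j1 n' hn', jι, hs1' n hn] at this
      exact H.h3 _ _ (by omega) (by omega) this
  refine ⟨D1, fD1, M1, x0, x1, x2, R2, s1, H1, ?_⟩
  intro D' fD' M' q R' hR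
  -- rotate the face back
  have hR'ne : R' ≠ [] := hR.face.1
  obtain ⟨l, z, rfl⟩ : ∃ l z, R' = l ++ [z] := ⟨_, _, (List.dropLast_append_getLast hR'ne).symm⟩
  have hmap : l.map q = (List.range k).map (fun n => M1.φ (s1 n)) ++ R2 ∧ q z = x0 := by
    have := hR.mapR
    rw [List.map_append, ← List.append_assoc] at this
    have h2 := List.append_inj' this (by simp)
    exact ⟨h2.1, by simpa using h2.2⟩
  refine ⟨fun x => j (q x), z :: l, ?_⟩
  have hRmap : (z :: l).map (fun x => j (q x)) =
      (List.range (k + 1)).map (fun n => M.φ (s n)) ++ rest := by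
    have e1 : (z :: l).map (fun x => j (q x)) = ((z :: l).map q).map j := by
      rw [List.map_map]; rfl
    rw [e1, List.map_cons, hmap.1, hmap.2, List.map_cons, List.map_append, hR2, hx0,
      List.range_succ_eq_map, List.map_cons, List.cons_append, List.map_map, List.map_map]
    congr 2
    apply List.map_congr_left
    intro n hn
    simp only [Function.comp_apply]
    exact j1 n (List.mem_range.1 hn)
  have hq : ∀ x, j (q x) ≠ i ∧ j (q x) ≠ s 0 := fun x => (jrng _).1 ⟨_, rfl⟩
  have hout : ∀ x, x ∉ z :: l → M.φ (j (q x)) ≠ i ∧ M.φ (j (q x)) ≠ s 0 := by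
    intro x hx
    constructor
    · intro h
      have h1 : j (q x) ∈ i :: o :: rest := face_mem' H.face (by rw [h]; simp)
      have h2 : j (q x) ∈ rest := by
        rcases List.mem_cons.1 h1 with h' | h'
        · exact absurd h' (hq x).1
        · rcases List.mem_cons.1 h' with h'' | h''
          · exfalso
            have hxo : q x = s1 k := by
              apply jinj
              rw [h'', hs1' k le_rfl, H.sk]
            exact ((hR.rng (q x)).1 ⟨x, rfl⟩ k le_rfl).1 hxo
          · exact h''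
      have h3 : j (q x) ∈ (z :: l).map (fun x => j (q x)) := by
        rw [hRmap]; exact List.mem_append_right _ h2
      obtain ⟨y, hy, hyx⟩ := List.mem_map.1 h3
      exact hx (hR.inj (jinj hyx) ▸ hy)
    · intro h
      have h1 : j (q x) = M.ι (s 1) := by
        rw [← hs1]
        apply M.φ.injective
        rw [h, hφφφ]
      have h2 : q x = M1.ι (s1 0) := by
        apply jinj
        rw [h1, jι, hs1' 0 (by omega)]
      exact ((hR.rng (q x)).1 ⟨x, rfl⟩ 0 (by omega)).2 h2
  refine ⟨?_, ?_, ?_, hRmap, ?_, ?_, ?_, ?_, ?_, ?_⟩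
  · intro x y h; exact hR.inj (jinj h)
  · intro x
    constructor
    · rintro ⟨x', rfl⟩ n hn
      rcases Nat.eq_zero_or_pos n with rfl | hn0
      · rw [hιs0]; exact ⟨(hq x').2, (hq x').1⟩
      · obtain ⟨m, rfl⟩ : ∃ m, n = m + 1 := ⟨n - 1, by omega⟩
        have h := (hR.rng (q x')).1 ⟨x', rfl⟩ m (by omega)
        constructor
        · intro h'
          exact h.1 (jinj (by rw [h', hs1' m (by omega)]))
        · intro h'
          exact h.2 (jinj (by rw [h', jι, hs1' m (by omega)]))
    · intro h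
      have h0 := h 0 (by omega)
      rw [hιs0] at h0
      obtain ⟨y, rfl⟩ := (jrng x).2 ⟨h0.2, h0.1⟩
      obtain ⟨x', hx'⟩ := (hR.rng y).2 (by
        intro m hm
        have := h (m + 1) (by omega)
        constructor
        · rintro rfl
          exact this.1 (hs1' m hm)
        · rintro rfl
          exact this.2 (by rw [jι, hs1' m hm]))
      exact ⟨x', by rw [hx']⟩
  · exact (face_rot M'.toDMap z l).2 hR.face
  · rw [← hol_rot, hR.hol, ← hhol, ← hol_rot M1 x0]
    rfl
  · intro x hx
    have h1 := hR.out x (by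
      intro h
      apply hx
      simpa [or_comm] using h)
    have h2 := hout x hx
    exact ⟨by rw [h1.1, jφ' _ h2.1 h2.2], by rw [h1.2, jh' _ h2.1 h2.2]⟩
  · intro x
    obtain ⟨h1, h2, h3⟩ := hR.lab x
    exact ⟨by rw [h1, jι], by rw [h2, jf], by rw [h3, jγ]⟩
  · intro x y
    rw [hR.same, jsame]
  · intro h; exact hR.planar (jplanar h)
  · intro hz
    apply hR.zero
    intro x
    rw [jγ, jh]
    refine ⟨(hz _).1, ?_⟩
    simp [(hz _).2, (hz _).1]

theorem main (habs : AbsStatement) (hhair : HairStatement) (V : Type) (a : Equiv.Perm V)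
    (hfree : ∀ (x : V) (n : ℤ), (a ^ n) x = x → n = 0) (k : ℕ) :
    ∀ (D : Type) (_ : Fintype D) (M : LMap V D a) (i o : D) (rest : List D) (s : ℕ → D),
      Hyp M i o rest k s → (1 ≤ k ∨ rest ≠ []) →
    ∃ (D' : Type) (_ : Fintype D') (M' : LMap V D' a) (q : D' → D) (R' : List D'),
      Res M i o rest k s M' q R' := by
  induction k with
  | zero =>
    intro D fD M i o rest s H h
    exact base hhair hfree M i o rest s H (h.resolve_left (by omega))
  | succ k ih =>
    intro D fD M i o rest s H _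
    obtain ⟨D1, fD1, M1, x0, x1, x2, R2, s1, H1, hres⟩ := step habs M i o rest k s H
    obtain ⟨D', fD', M', q, R', hR⟩ := ih D1 fD1 M1 x1 x2 (R2 ++ [x0]) s1 H1 (Or.inr (by simp))
    obtain ⟨q', R'', hR''⟩ := hres D' fD' M' q R' hR
    exact ⟨D', fD', M', q', R'', hR''⟩

theorem delv (habs : AbsStatement) (hhair : HairStatement) : DelVStatement := by
  intro V D fD a hfree M i o rest k s hk hface hs0 hsk hall hinj hh1 hh2 hh3
  obtain ⟨D', fD', M', q, R', hR⟩ := main habs hhair V a hfree k D fD M i o rest s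
    ⟨hface, hs0, hsk, fun j hj => (hall j hj).1, fun j hj => (hall j hj).2.1,
      fun j hj => (hall j hj).2.2, hinj, hh1, hh2, hh3⟩ (Or.inl hk)
  exact ⟨D', fD', M', q, R', hR.inj, hR.rng, hR.face, hR.mapR, hR.hol, hR.out, hR.lab, hR.same,
    hR.planar, hR.zero⟩

end MSG.H23
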