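import Pool.Agent.Lib.MP_acafa7_al.MS.Iface2
import Pool.Agent.Lib.MP_acafa7_al.MS.H23.DelM

/-! Module EraseM: erasing a flat boundary vertex with two triangles. -/

namespace MSG.H23

open Classical

section functions

variable {V : Type} {X : Cx V} {a : Equiv.Perm V}

theorem pow_adj_nat (hf : FreeAut X a) (n : ℕ) (x y : V) :
    X.G.Adj ((a ^ n) x) ((a ^ n) y) ↔ X.G.Adj x y := by
  induction n generalizing x y with
  | zero => simp
  | succ n ih => rw [pow_succ, Equiv.Perm.mul_apply, Equiv.Perm.mul_apply, ih, hf.adj]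

theorem pow_adj (hf : FreeAut X a) (n : ℤ) (x y : V) :
    X.G.Adj ((a ^ n) x) ((a ^ n) y) ↔ X.G.Adj x y := by
  rcases n with n | n
  · simpa using pow_adj_nat hf n x y
  · have := pow_adj_nat hf (n + 1) ((a ^ (Int.negSucc n)) x) ((a ^ (Int.negSucc n)) y)
    rw [← this, zpow_negSucc, ← Equiv.Perm.mul_apply, ← Equiv.Perm.mul_apply, mul_inv_cancel,
      Equiv.Perm.one_apply, Equiv.Perm.one_apply]

theorem dist_pow_le (hf : FreeAut X a) (hc : X.G.Connected) (n : ℤ) (x y : V) :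
    X.G.dist ((a ^ n) x) ((a ^ n) y) ≤ X.G.dist x y := by
  obtain ⟨w, hw⟩ := hc.exists_walk_length_eq_dist x y
  let f : X.G →g X.G := ⟨fun v => (a ^ n) v, fun {u v} h => (pow_adj hf n u v).2 h⟩
  have := SimpleGraph.dist_le (w.map f)
  rw [SimpleGraph.Walk.length_map, hw] at this
  exact this

theorem zpow_zpow (m n : ℤ) (x : V) : (a ^ m) ((a ^ n) x) = (a ^ (m + n)) x := by
  rw [← Equiv.Perm.mul_apply, ← zpow_add]

theorem dist_pow (hf : FreeAut X a) (hc : X.G.Connected) (n : ℤ) (x y : V) :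
    X.G.dist ((a ^ n) x) ((a ^ n) y) = X.G.dist x y := by
  apply le_antisymm (dist_pow_le hf hc n x y)
  have := dist_pow_le hf hc (-n) ((a ^ n) x) ((a ^ n) y)
  rw [zpow_zpow, zpow_zpow] at this
  simpa using this

theorem sh_sh (m n : ℤ) (e : V → ℝ) : sh a m (sh a n e) = sh a (m + n) e := by
  funext z
  unfold sh
  rw [zpow_zpow, neg_add, add_comm]

theorem sh_zero (e : V → ℝ) : sh a 0 e = e := by
  funext z
  simp [sh]

theorem sh_kap (hf : FreeAut X a) (hc : X.G.Connected) (n : ℤ) (x : V) :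
    sh a n (kap X x) = kap X ((a ^ n) x) := by
  funext z
  unfold sh kap
  have := dist_pow hf hc n x ((a ^ (-n)) z)
  rw [← this, zpow_zpow]
  simp

theorem cy_trans {K : ℕ} {x y z : V} (h1 : CY X a K x y) (h2 : CY X a K y z) :
    CY X a K x z := by
  obtain ⟨l, hl, hlK⟩ := h1
  obtain ⟨m, hm, hmK⟩ := h2
  rcases m with _ | ⟨y', m⟩
  · exact absurd hm.first (by simp)
  · have hy : y' = y := by simpa using hm.first
    subst hy
    refine ⟨l ++ m, ⟨?_, ?_, ?_⟩, ?_⟩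
    · rw [List.isChain_append]
      refine ⟨hl.chain, (List.isChain_cons.1 hm.chain).2, ?_⟩
      intro u hu v hv
      have h3 := hl.last
      rw [Option.mem_def] at hu
      rw [hu] at h3
      have : u = y' := by simpa using h3
      subst this
      exact (List.isChain_cons.1 hm.chain).1 v hv
    · rw [List.head?_append, hl.first]; rfl
    · have h3 := hm.last
      rcases hmm : m.getLast? with _ | w
      · have : m = [] := List.getLast?_eq_none_iff.1 hmm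
        subst this
        have : y' = z := by simpa using h3
        rw [List.append_nil, hl.last, this]
      · rw [List.getLast?_append, hmm]
        rw [List.getLast?_cons, hmm] at h3
        simpa using h3
    · intro u hu
      rcases List.mem_append.1 hu with h | h
      · exact hlK u h
      · exact hmK u (List.mem_cons_of_mem _ h)

theorem fil_rot (h5 : FilRStatement) (hf : FreeAut X a) {C l1 l2 l3 : ℝ}
    {e1 e2 e3 : ℝ → V → ℝ} (h : Fil X C l1 l2 l3 e1 e2 e3) (n : ℤ) :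
    Fil X C l2 l3 l1 (fun s => sh a n (e2 s)) (fun s => sh a n (e3 s))
      (fun s => sh a n (e1 s)) :=
  ((h5 V X a hf _ _ _ _ _ _ _ ((h5 V X a hf _ _ _ _ _ _ _ h).1)).2.1 n)

theorem ext_fun {D D' α : Type*} (j : D → D') (n n' : D') (hj : Function.Injective j)
    (hn : n ≠ n') (hjn : ∀ x, j x ≠ n ∧ j x ≠ n') (u : D → α) (v w : α) :
    ∃ g : D' → α, (∀ x, g (j x) = u x) ∧ g n = v ∧ g n' = w := by
  refine ⟨fun d => if d = n then v else if d = n' then w else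
    Function.extend j u (fun _ => v) d, ?_, ?_, ?_⟩
  · intro x
    simp only [(hjn x).1, (hjn x).2, if_false]
    exact hj.extend_apply _ _ _
  · simp
  · simp [hn.symm]

theorem fil_next (h5 : FilRStatement) (hf : FreeAut X a) {C l1 l2 l3 : ℝ}
    {u v w : ℝ → V → ℝ} {m k t : ℤ} (hs : m + k + t = 0)
    (h : Fil X C l1 l2 l3 u (fun s => sh a m (v s)) (fun s => sh a (m + k) (w s))) :
    Fil X C l2 l3 l1 v (fun s => sh a k (w s)) (fun s => sh a (k + t) (u s)) := by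
  have h' := fil_rot h5 hf h (-m)
  simp only [sh_sh] at h'
  rw [show -m + m = 0 by ring, show -m + (m + k) = k by ring, show -m = k + t by omega] at h'
  simpa only [sh_zero] using h'

end functions

/-- `M'` is obtained from `M` by an edge `n` parallel to `r, φ r` -/
structure Cut {V D D' : Type} {a : Equiv.Perm V} (M : LMap V D a) (M' : LMap V D' a) (r : D)
    (j : D → D') (n n' : D') : Prop where
  inj : Function.Injective j
  ne : n ≠ n'
  ran : ∀ x, j x ≠ n ∧ j x ≠ n'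
  all : ∀ d', d' = n ∨ d' = n' ∨ ∃ x, j x = d'
  φj : ∀ x, M'.φ (j x) = if x = M.φ r then n' else if M.φ x = r then n else j (M.φ x)
  φn' : M'.φ n' = j r
  φn : M'.φ n = if M.φ (M.φ r) = r then n else j (M.φ (M.φ r))
  ιj : ∀ x, M'.ι (j x) = j (M.ι x)
  ιn : M'.ι n = n'
  lab : ∀ x, M'.f (j x) = M.f x ∧ M'.γ (j x) = M.γ x ∧ M'.h (j x) = M.h x
  fn : M'.f n = M.f r
  fn' : M'.f n' = M.f (M.φ (M.φ r))
  γn : M'.γ n = M.h r + M.h (M.φ r)
  hn : M'.h n = M.h r + M.h (M.φ r)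
  hn' : M'.h n' = -(M.h r + M.h (M.φ r))
  same : ∀ x y, M'.SameV (j x) (j y) ↔ M.SameV x y
  sn : M'.SameV n (j r)
  planar : M.Planar → M'.Planar

section cut

variable {V D D' : Type} {a : Equiv.Perm V} {M : LMap V D a} {M' : LMap V D' a} {r : D}
  {j : D → D'} {n n' : D'}

theorem cut_face (h : Cut M M' r j n n') {r' : D} {rest : List D}
    (hf : M.IsFace (r :: r' :: rest)) : M'.IsFace (n :: rest.map j) := by
  obtain ⟨e1, e2⟩ := face_eq hf
  have hnd := hf.2.1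
  simp only [List.nodup_cons, List.mem_cons, not_or] at hnd
  obtain ⟨⟨hrr, hr⟩, hr', hrest⟩ := hnd
  refine ⟨by simp, ?_, ?_⟩
  · rw [List.nodup_cons]
    refine ⟨?_, (List.nodup_map_iff h.inj).2 hrest⟩
    intro hm
    obtain ⟨x, _, hx⟩ := List.mem_map.1 hm
    exact (h.ran x).1 hx
  · rw [rot_one, List.map_cons, List.map_map]
    let g : D → D' := fun z => if z = r then n else j z
    have f1 : M'.φ n = g (M.φ r') := by
      rw [h.φn, e1]
    have f2 : rest.map (M'.φ ∘ j) = rest.map (g ∘ M.φ) := by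
      apply List.map_congr_left
      intro x hx
      have hne : x ≠ M.φ r := by
        rintro rfl
        rw [e1] at hx; exact hr' hx
      simp only [Function.comp_apply, h.φj x, hne, if_false, g]
    have f3 : (M.φ r' :: rest.map M.φ).map g = (rest ++ [r]).map g := by
      have := congrArg (List.map g) e2
      simpa using this
    rw [f1, f2, ← List.map_map, ← List.map_cons, f3, List.map_append]
    congr 1
    · apply List.map_congr_left
      intro x hx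
      have : x ≠ r := by rintro rfl; exact hr hx
      simp [g, this]
    · simp [g]

theorem cut_φ (h : Cut M M' r j n n') {x : D} (h1 : x ≠ M.φ r) (h2 : M.φ x ≠ r) :
    M'.φ (j x) = j (M.φ x) := by
  rw [h.φj x, if_neg h1, if_neg h2]

theorem cut_face' (h : Cut M M' r j n n') {Q : List D}
    (hf : M.IsFace Q) (hr : r ∉ Q) : M'.IsFace (Q.map j) := by
  refine ⟨by simpa using hf.1, (List.nodup_map_iff h.inj).2 hf.2.1, ?_⟩
  rw [← List.map_rotate, ← hf.2.2, List.map_map, List.map_map]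
  apply List.map_congr_left
  intro x hx
  apply cut_φ h
  · rintro rfl
    exact hr (face_mem' hf hx)
  · rintro rfl
    exact hr (face_mem hf hx)

theorem cut_mem (h : Cut M M' r j n n') (l : List D) (x : D) : j x ∈ l.map j ↔ x ∈ l := by
  rw [List.mem_map]
  constructor
  · rintro ⟨y, hy, hyx⟩
    rwa [← h.inj hyx]
  · exact fun hx => ⟨x, hx, rfl⟩

theorem cut_annB (h : Cut M M' r j n n') (rest Q : List D) (x : D) :
    j x ∈ annB (n :: rest.map j) (Q.map j) ↔ x ∈ rest ∨ x ∈ Q := by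
  unfold annB
  simp only [Set.mem_ofPred_eq, List.mem_cons, (h.ran x).1, false_or, cut_mem h]

theorem cut_annB' (h : Cut M M' r j n n') (rest Q : List D) :
    n' ∉ annB (n :: rest.map j) (Q.map j) := by
  rintro (hx | hx)
  · rcases List.mem_cons.1 hx with hx | hx
    · exact h.ne hx.symm
    · obtain ⟨x, _, hx⟩ := List.mem_map.1 hx
      exact (h.ran x).2 hx
  · obtain ⟨x, _, hx⟩ := List.mem_map.1 hx
    exact (h.ran x).2 hx

/-- the darts outside the big faces -/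
theorem cut_cases (h : Cut M M' r j n n') {r' : D} {rest Q : List D} (d : D')
    (hd : d ∉ annB (n :: rest.map j) (Q.map j)) :
    d = n' ∨ d = j r ∨ d = j r' ∨ ∃ x, d = j x ∧ x ∉ annB (r :: r' :: rest) Q := by
  rcases h.all d with rfl | rfl | ⟨x, rfl⟩
  · exact absurd (Or.inl (List.mem_cons_self)) hd
  · exact Or.inl rfl
  · rw [cut_annB h] at hd
    push Not at hd
    by_cases h1 : x = r
    · rw [h1]; exact Or.inr (Or.inl rfl)
    by_cases h2 : x = r'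
    · rw [h2]; exact Or.inr (Or.inr (Or.inl rfl))
    · refine Or.inr (Or.inr (Or.inr ⟨x, rfl, ?_⟩))
      rintro (h3 | h3)
      · simp only [List.mem_cons, h1, h2, false_or] at h3
        exact hd.1 h3
      · exact hd.2 h3

theorem cut_φr (h : Cut M M' r j n n') {r' : D} {rest : List D}
    (hf : M.IsFace (r :: r' :: rest)) : M'.φ (j r) = j r' ∧ M'.φ (j r') = n' := by
  obtain ⟨e1, -⟩ := face_eq hf
  have hnd := hf.2.1
  simp only [List.nodup_cons, List.mem_cons, not_or] at hnd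
  constructor
  · rw [cut_φ h, e1]
    · rw [e1]; exact hnd.1.1
    · rw [e1]; exact fun h => hnd.1.1 h.symm
  · rw [h.φj, e1, if_pos rfl]

theorem cut_out (h : Cut M M' r j n n') {r' : D} {rest Q : List D} {ε : ℤ}
    (hA : IsAnn M (r :: r' :: rest) Q ε) {x : D} (hx : x ∉ annB (r :: r' :: rest) Q) :
    M'.φ (j x) = j (M.φ x) ∧ M'.φ (j (M.φ x)) = j (M.φ (M.φ x)) ∧
    M'.φ (j (M.φ (M.φ x))) = j x ∧ M.φ x ∉ annB (r :: r' :: rest) Q ∧
    M.φ (M.φ x) ∉ annB (r :: r' :: rest) Q := by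
  have key : ∀ y, y ∉ annB (r :: r' :: rest) Q →
      M'.φ (j y) = j (M.φ y) ∧ M.φ y ∉ annB (r :: r' :: rest) Q := by
    intro y hy
    have h2 : M.φ y ∉ annB (r :: r' :: rest) Q := by
      rintro (h3 | h3)
      · exact hy (Or.inl (face_mem' hA.faceP h3))
      · exact hy (Or.inr (face_mem' hA.faceQ h3))
    refine ⟨cut_φ h ?_ ?_, h2⟩
    · rintro rfl
      exact hy (Or.inl (face_mem hA.faceP (by simp)))
    · intro h3
      exact h2 (Or.inl (by rw [h3]; simp))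
  obtain ⟨k1, k2⟩ := key x hx
  obtain ⟨k3, k4⟩ := key _ k2
  obtain ⟨k5, k6⟩ := key _ k4
  refine ⟨k1, k3, ?_, k2, k4⟩
  rw [k5, (hA.off.2 x hx).1.1]

theorem cut_ann (h : Cut M M' r j n n') {r' : D} {rest Q : List D} {ε : ℤ}
    (hA : IsAnn M (r :: r' :: rest) Q ε) :
    IsAnn M' (n :: rest.map j) (Q.map j) ε := by
  have hrQ : r ∉ Q := hA.disj r (by simp)
  obtain ⟨e1, -⟩ := face_eq hA.faceP
  have hf := cut_face h hA.faceP
  have hfQ := cut_face' h hA.faceQ hrQ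
  obtain ⟨g1, g2⟩ := cut_φr h hA.faceP
  have hh : M'.h (j r) = M.h r ∧ M'.h (j r') = M.h r' := ⟨(h.lab r).2.2, (h.lab r').2.2⟩
  have hn' := h.hn'
  rw [e1] at hn'
  refine ⟨h.planar hA.planar, hf, hfQ, ?_, ⟨?_, ?_⟩, ?_, ?_, hA.eps⟩
  · intro d hd hdQ
    obtain ⟨x, hx, rfl⟩ := List.mem_map.1 hdQ
    rcases List.mem_cons.1 hd with h1 | h1
    · exact (h.ran x).1 h1
    · rw [cut_mem h] at h1
      exact hA.disj x (by simp [h1]) hx
  · rintro d (hd | hd)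
    · exact Or.inl (face_mem hf hd)
    · exact Or.inr (face_mem hfQ hd)
  · intro d hd
    have hne : ∀ x, j x ≠ n' := fun x => (h.ran x).2
    have hrr : j r' ≠ j r := by
      intro h2
      have := h.inj h2
      have hnd := hA.faceP.2.1
      rw [this] at hnd
      simp at hnd
    rcases cut_cases h (r' := r') d hd with rfl | rfl | rfl | ⟨x, rfl, hx⟩
    · refine ⟨⟨?_, ?_⟩, ?_⟩
      · rw [h.φn', g1, g2]
      · rw [h.φn']; exact hne _
      · rw [h.φn', g1, hn', hh.1, hh.2]; ring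
    · refine ⟨⟨?_, ?_⟩, ?_⟩
      · rw [g1, g2, h.φn']
      · rw [g1]; exact hrr
      · rw [g1, g2, hn', hh.1, hh.2]; ring
    · refine ⟨⟨?_, ?_⟩, ?_⟩
      · rw [g2, h.φn', g1]
      · rw [g2]; exact (hne _).symm
      · rw [g2, h.φn', hn', hh.1, hh.2]; ring
    · obtain ⟨k1, k2, k3, k4, k5⟩ := cut_out h hA hx
      have hT := hA.off.2 x hx
      refine ⟨⟨?_, ?_⟩, ?_⟩
      · rw [k1, k2, k3]
      · rw [k1]
        exact fun h2 => hT.1.2 (h.inj h2)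
      · rw [k1, k2, (h.lab _).2.2, (h.lab _).2.2, (h.lab _).2.2]
        exact hT.2
  · rw [← hA.holP]
    unfold LMap.hol
    rw [List.map_cons, List.map_map, List.sum_cons, h.hn, e1]
    simp only [List.map_cons, List.sum_cons]
    have : rest.map (M'.h ∘ j) = rest.map M.h :=
      List.map_congr_left (fun x _ => (h.lab x).2.2)
    rw [this]; ring
  · rw [← hA.holQ]
    unfold LMap.hol
    rw [List.map_map]
    have : Q.map (M'.h ∘ j) = Q.map M.h :=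
      List.map_congr_left (fun x _ => (h.lab x).2.2)
    rw [this]

theorem cut_MA [Fintype D] [Fintype D'] (h5 : FilRStatement) {X : Cx V} {C : ℝ}
    (haut : FreeAut X a) (hconn : X.G.Connected)
    (h : Cut M M' r j n n') {r' : D} {rest Q : List D} {ε : ℤ} {ℓ : D → ℝ} {e : D → ℝ → V → ℝ}
    (hM : IsMA X C M (r :: r' :: rest) Q ε ℓ e) (L : ℝ) (W : ℝ → V → ℝ)
    (hTr : Tr (ℓ r) (ℓ r') L)
    (hW : Fil X C (ℓ r) (ℓ r') L (e r) (fun s => sh a (M.h r) (e r' s)) W)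
    (W0 : W 0 = kap X ((a ^ (M.h r + M.h r')) (M.f (M.φ r'))))
    (WL : W L = kap X (M.f r))
    (Wlip : ∀ s s', 0 ≤ s → s ≤ L → 0 ≤ s' → s' ≤ L → ∀ z, |W s z - W s' z| ≤ C * |s - s'|) :
    ∃ (ℓ' : D' → ℝ) (e' : D' → ℝ → V → ℝ), (∀ x, ℓ' (j x) = ℓ x) ∧ ℓ' n = L ∧ ℓ' n' = L ∧
      ((∀ d, (∀ b, M'.SameV d b → b ∉ annB (n :: rest.map j) (Q.map j)) →
        M'.curv ℓ' (annB (n :: rest.map j) (Q.map j)) d ≤ 0) →
      IsMA X C M' (n :: rest.map j) (Q.map j) ε ℓ' e') := by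
  obtain ⟨ℓ', l1, l2, l3⟩ := ext_fun j n n' h.inj h.ne h.ran ℓ L L
  obtain ⟨e', p1, p2, p3⟩ := ext_fun j n n' h.inj h.ne h.ran e (fun s => W (L - s))
    (fun s => sh a (-(M.h r + M.h r')) (W s))
  refine ⟨ℓ', e', l1, l2, l3, fun hnpc => ?_⟩
  have hA := hM.ann
  obtain ⟨e1, -⟩ := face_eq hA.faceP
  obtain ⟨g1, g2⟩ := cut_φr h hA.faceP
  have g3 := h.φn'
  have hn' := h.hn'
  have hn := h.hn
  have hγn := h.γn
  rw [e1] at hn' hn hγn
  have hhr : M'.h (j r) = M.h r := (h.lab r).2.2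
  have hhr' : M'.h (j r') = M.h r' := (h.lab r').2.2
  have hιn' : M'.ι n' = n := by rw [← h.ιn, M'.ιι]
  have hγn' : M'.γ n' = -(M.h r + M.h r') := by rw [← h.ιn, M'.γι, hγn]
  have T0 : Fil X C (ℓ' (j r)) (ℓ' (j r')) (ℓ' n') (e' (j r))
      (fun s => sh a (M'.h (j r)) (e' (j r') s))
      (fun s => sh a (M'.h (j r) + M'.h (j r')) (e' n' s)) := by
    rw [l1, l1, l3, p1, p1, p3, hhr, hhr']
    simp only [sh_sh]
    rw [show M.h r + M.h r' + -(M.h r + M.h r') = 0 by ring]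
    simpa only [sh_zero] using hW
  have T1 := fil_next h5 haut (t := M'.h n') (by rw [hhr, hhr', hn']; ring) T0
  have T2 := fil_next h5 haut (t := M'.h (j r)) (by rw [hhr, hhr', hn']; ring) T1
  refine ⟨cut_ann h hA, ⟨?_, ?_, ?_⟩, ?_, ?_, ?_, ?_, hnpc⟩
  · intro d
    rcases h.all d with rfl | rfl | ⟨x, rfl⟩
    · rw [l2]; exact hTr.pz
    · rw [l3]; exact hTr.pz
    · rw [l1]; exact hM.lenok.1 x
  · intro d
    rcases h.all d with rfl | rfl | ⟨x, rfl⟩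
    · rw [h.ιn, l2, l3]
    · rw [hιn', l2, l3]
    · rw [h.ιj, l1, l1]; exact hM.lenok.2.1 x
  · intro d hd
    rcases cut_cases h (r' := r') d hd with rfl | rfl | rfl | ⟨x, rfl, hx⟩
    · rw [g3, g1, l1, l1, l3]; have := hTr.hx; linarith
    · rw [g1, g2, l1, l1, l3]; exact hTr.hy
    · rw [g2, g3, l1, l1, l3]; have := hTr.hz; linarith
    · obtain ⟨k1, k2, k3, k4, k5⟩ := cut_out h hA hx
      rw [k1, k2, l1, l1, l1]
      exact hM.lenok.2.2 x hx
  · intro d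
    rcases h.all d with rfl | rfl | ⟨x, rfl⟩
    · rw [p2, h.fn, ← WL]; simp
    · rw [p3, h.fn', e1]
      change sh a (-(M.h r + M.h r')) (W 0) = _
      rw [W0, sh_kap haut hconn, zpow_zpow]
      simp
    · rw [p1, (h.lab x).1]; exact hM.e0 x
  · intro d s h0 hs
    rcases h.all d with rfl | rfl | ⟨x, rfl⟩
    · rw [h.ιn, p2, p3, hγn, l2, sh_sh]
      simp [sh_zero]
    · rw [hιn', p2, p3, hγn', l3]
    · rw [h.ιj, p1, p1, (h.lab x).2.1, l1]
      rw [l1] at hs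
      exact hM.eι x s h0 hs
  · intro d s s' h1 h2 h3 h4 z
    rcases h.all d with rfl | rfl | ⟨x, rfl⟩
    · rw [p2]
      rw [l2] at h2 h4
      have := Wlip (L - s) (L - s') (by linarith) (by linarith) (by linarith) (by linarith) z
      rw [show L - s - (L - s') = -(s - s') by ring, abs_neg] at this
      exact this
    · rw [p3]
      rw [l3] at h2 h4
      exact Wlip s s' h1 h2 h3 h4 _
    · rw [p1]
      rw [l1] at h2 h4
      exact hM.elip x s s' h1 h2 h3 h4 z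
  · intro d hd
    rcases cut_cases h (r' := r') d hd with rfl | rfl | rfl | ⟨x, rfl, hx⟩
    · rw [g3, g1]; exact T2
    · rw [g1, g2]; exact T0
    · rw [g2, g3]; exact T1
    · obtain ⟨k1, k2, k3, k4, k5⟩ := cut_out h hA hx
      rw [k1, k2, l1, l1, l1, p1, p1, p1, (h.lab x).2.2, (h.lab (M.φ x)).2.2]
      exact hM.fil x hx

end cut

theorem tri_Tr {D : Type} {M : DMap D} {ℓ : D → ℝ} {B : Set D} (hL : M.LenOK ℓ B) {d : D}
    (h3 : M.φ (M.φ (M.φ d)) = d) (h0 : d ∉ B) (h1 : M.φ d ∉ B) (h2 : M.φ (M.φ d) ∉ B) :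
    Tr (ℓ d) (ℓ (M.φ d)) (ℓ (M.φ (M.φ d))) := by
  have e0 := hL.2.2 d h0
  have e1 := hL.2.2 _ h1
  have e2 := hL.2.2 _ h2
  rw [h3] at e1 e2
  exact ⟨hL.1 _, hL.1 _, hL.1 _, by linarith, by linarith, by linarith⟩

theorem free_eq {V : Type} {X : Cx V} {a : Equiv.Perm V} (hf : FreeAut X a) {m n : ℤ} {x : V}
    (h : (a ^ m) x = (a ^ n) x) : m = n := by
  have : (a ^ (-n + m)) x = x := by
    rw [← zpow_zpow, h, zpow_zpow]
    simp
  have := hf.free _ _ this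
  omega

theorem erasem (h1 : DelMStatement) (h2 : AddEStatement) (h3 : EraseAStatement)
    (h4 : EraseGStatement) (h5 : FilRStatement) (h6 : PConnStatement) (_h7 : AngStatement) :
    EraseMStatement := by
  intro V X a C K K' hyp 𝒜 o s hK hmark hF hoo hl1 hcurv0
  have haut := hyp.aut
  have hconn := hyp.conn
  obtain ⟨hoP, honly, -⟩ := hmark
  have hloop : ∀ j, 0 < j → j < 2 → ¬ 𝒜.M.SameV o (𝒜.M.ι (s j)) := by
    intro j hj hj'
    have : j = 1 := by omega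
    rw [this]; exact hl1
  obtain ⟨hi, hB1, hB2, hsι, -, -⟩ := fan_facts 𝒜 o 2 s hoP honly hF hoo hloop
  have hok := 𝒜.ok
  have hann := hok.ann
  have htri : ∀ j, j < 2 → 𝒜.M.Tri (s j) := fun j hj => hann.off.2 _ (hF.tri j hj)
  have t0 := htri 0 (by norm_num)
  have t1 := htri 1 (by norm_num)
  have n1 : s 1 = 𝒜.M.ι (𝒜.M.φ (𝒜.M.φ (s 0))) := hF.next 0 (by norm_num)
  have n2 : s 2 = 𝒜.M.ι (𝒜.M.φ (𝒜.M.φ (s 1))) := hF.next 1 (by norm_num)
  obtain ⟨𝒜₁, q, rest, qinj, qrng, hPm, hrot, hQm, hε, hcard, hout, hlab, hsame⟩ :=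
    h1 V X a C haut 𝒜 o 2 s hoP honly hF hoo (by norm_num) hloop
  -- the list `P` of the middle annulus
  obtain ⟨r, r', rest₁, hP₁, hqr, hqr', hrest⟩ : ∃ r r' rest₁, 𝒜₁.P = r :: r' :: rest₁ ∧
      q r = 𝒜.M.φ (s 0) ∧ q r' = 𝒜.M.φ (s 1) ∧ rest₁.map q = rest := by
    have e : (List.range 2).map (fun j => 𝒜.M.φ (s j)) ++ rest =
        𝒜.M.φ (s 0) :: 𝒜.M.φ (s 1) :: rest := by
      simp [List.range_succ]
    rw [e] at hPm
    rcases hP : 𝒜₁.P with _ | ⟨r, _ | ⟨r', rest₁⟩⟩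
    · rw [hP] at hPm; simp at hPm
    · rw [hP] at hPm; simp at hPm
    · rw [hP] at hPm
      simp only [List.map_cons, List.cons.injEq] at hPm
      exact ⟨r, r', rest₁, rfl, hPm.1, hPm.2.1, hPm.2.2⟩
  have hok₁ := 𝒜₁.ok
  have hann₁ := hok₁.ann
  rw [hP₁] at hok₁ hann₁
  obtain ⟨er, -⟩ := face_eq hann₁.faceP
  have hrr : r ≠ r' := by
    rintro rfl
    have := hann₁.faceP.2.1
    simp at this
  obtain ⟨D', fD', M', j, n, n', jinj, hne, hran, hall, hφj, hφn', hφn, hιj, hιn, hlb, hfn, hfn',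
    hγn, hhn, hhn', hsm, hsn, hsn', hpl⟩ := h2 V 𝒜₁.D a 𝒜₁.M r (by rw [er]; exact hrr.symm)
  have hcut : Cut 𝒜₁.M M' r j n n' := ⟨jinj, hne, hran, hall, hφj, hφn', hφn, hιj, hιn, hlb,
    hfn, hfn', hγn, hhn, hhn', hsm, hsn, hpl⟩
  -- triangles
  have T0 : Tr (𝒜.ℓ (s 0)) (𝒜.ℓ (𝒜.M.φ (s 0))) (𝒜.ℓ (𝒜.M.φ (𝒜.M.φ (s 0)))) :=
    tri_Tr hok.lenok t0.1.1 (hF.tri 0 (by norm_num)) (hB1 0 (by norm_num))
      (hB2 0 (by norm_num))
  have T1 : Tr (𝒜.ℓ (s 1)) (𝒜.ℓ (𝒜.M.φ (s 1))) (𝒜.ℓ (𝒜.M.φ (𝒜.M.φ (s 1)))) :=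
    tri_Tr hok.lenok t1.1.1 (hF.tri 1 (by norm_num)) (hB1 1 (by norm_num))
      (hB2 1 (by norm_num))
  have lr1 : 𝒜.ℓ (𝒜.M.φ (𝒜.M.φ (s 0))) = 𝒜.ℓ (s 1) := by
    rw [n1, hok.lenok.2.1]
  have lr2 : 𝒜.ℓ (𝒜.M.φ (𝒜.M.φ (s 1))) = 𝒜.ℓ (s 2) := by
    rw [n2, hok.lenok.2.1]
  rw [lr1] at T0
  rw [lr2] at T1
  have hang : ang (𝒜.ℓ (s 0)) (𝒜.ℓ (s 1)) (𝒜.ℓ (𝒜.M.φ (s 0))) +
      ang (𝒜.ℓ (s 1)) (𝒜.ℓ (s 2)) (𝒜.ℓ (𝒜.M.φ (s 1))) = Real.pi := by
    have := hF.curv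
    rw [hcurv0] at this
    simp only [Finset.sum_range_succ, Finset.sum_range_zero, zero_add] at this
    unfold DMap.th at this
    rw [lr1, lr2] at this
    linarith
  obtain ⟨TL, -, -, hangle⟩ := h3 _ _ _ _ _ T0 T1 hang
  -- holonomies of the middle annulus
  have hs1 : 𝒜.M.γ (s 1) = - 𝒜.M.γ (𝒜.M.φ (𝒜.M.φ (s 0))) := by
    rw [n1, 𝒜.M.γι]
  have ιs1 : 𝒜.M.ι (s 1) = 𝒜.M.φ (𝒜.M.φ (s 0)) := by rw [n1, 𝒜.M.ιι]
  have hfs : 𝒜.M.f (𝒜.M.φ (𝒜.M.φ (s 0))) =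
      (a ^ (𝒜.M.γ (𝒜.M.φ (𝒜.M.φ (s 0))) + 𝒜.M.h (s 1))) (𝒜.M.f (𝒜.M.φ (s 1))) := by
    have := 𝒜.M.tgt (s 1)
    rw [ιs1, hs1] at this
    rw [← zpow_zpow, ← this, zpow_zpow]
    simp
  have key : ∀ x, (a ^ 𝒜₁.M.h x) (𝒜₁.M.f (𝒜₁.M.φ x)) =
      (a ^ 𝒜.M.h (q x)) (𝒜.M.f (𝒜.M.φ (q x))) := by
    intro x
    rw [← 𝒜₁.M.tgt x, ← 𝒜.M.tgt (q x), (hlab x).2.2.1, (hlab (𝒜₁.M.ι x)).2.1, (hlab x).1]
  have hh1 : 𝒜₁.M.h r = 𝒜.M.h (𝒜.M.φ (s 0)) + 𝒜.M.γ (𝒜.M.φ (𝒜.M.φ (s 0))) +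
      𝒜.M.h (s 1) := by
    have := key r
    rw [er, (hlab r').2.1, hqr, hqr', hfs, zpow_zpow] at this
    have := free_eq haut this
    omega
  -- functions
  have hfil := h4 V X C hyp.C0.le (𝒜.ℓ (s 0)) (𝒜.ℓ (s 1)) (𝒜.ℓ (s 2))
    (𝒜.ℓ (𝒜.M.φ (s 0))) (𝒜.ℓ (𝒜.M.φ (s 1))) (𝒜.e (s 0))
    (fun t => sh a (𝒜.M.h (s 0)) (𝒜.e (𝒜.M.φ (s 0)) t))
    (fun t => sh a (𝒜.M.h (s 0) + 𝒜.M.h (𝒜.M.φ (s 0))) (𝒜.e (𝒜.M.φ (𝒜.M.φ (s 0))) t))
    (fun t => sh a (𝒜.M.h (s 0) + 𝒜₁.M.h r) (𝒜.e (𝒜.M.φ (s 1)) t))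
    (fun t => sh a (𝒜.M.h (s 0) + 𝒜₁.M.h r + 𝒜.M.h (𝒜.M.φ (s 1)))
      (𝒜.e (𝒜.M.φ (𝒜.M.φ (s 1))) t)) T0 T1 hang
    (by
      have := hok.fil (s 0) (hF.tri 0 (by norm_num))
      rw [lr1] at this
      exact this)
    (by
      have := hok.fil (s 1) (hF.tri 1 (by norm_num))
      rw [lr2] at this
      have := (h5 V X a haut _ _ _ _ _ _ _ this).2.1 (𝒜.M.h (s 0) + 𝒜.M.h (𝒜.M.φ (s 0)) +
        𝒜.M.γ (𝒜.M.φ (𝒜.M.φ (s 0))))
      refine (h5 V X a haut _ _ _ _ _ _ _ this).2.2 _ _ _ ?_ ?_ ?_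
      · intro t h0 ht
        have := hok.eι (𝒜.M.φ (𝒜.M.φ (s 0))) t h0 (by rw [lr1]; exact ht)
        rw [lr1, ← n1] at this
        change sh a _ (𝒜.e _ (𝒜.ℓ (s 1) - t)) = _
        rw [← this, sh_sh]
      · intro t _ _
        change sh a _ _ = sh a _ (sh a _ _)
        rw [sh_sh, hh1]
        congr 1
        ring
      · intro t _ _
        change sh a _ _ = sh a _ (sh a _ _)
        rw [sh_sh, hh1]
        congr 1
        ring)
  obtain ⟨hfil1, -, hlip⟩ := hfil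
  obtain ⟨W, hWdef⟩ : ∃ W : ℝ → V → ℝ, W = fun t => sh a (-𝒜.M.h (s 0))
    (if t ≤ 𝒜.ℓ (s 2) then sh a (𝒜.M.h (s 0) + 𝒜₁.M.h r + 𝒜.M.h (𝒜.M.φ (s 1)))
      (𝒜.e (𝒜.M.φ (𝒜.M.φ (s 1))) t) else 𝒜.e (s 0) (t - 𝒜.ℓ (s 2))) := ⟨_, rfl⟩
  have hW : Fil X C (𝒜₁.ℓ r) (𝒜₁.ℓ r') (𝒜.ℓ (s 0) + 𝒜.ℓ (s 2)) (𝒜₁.e r)
      (fun t => sh a (𝒜₁.M.h r) (𝒜₁.e r' t)) W := by
    have := (h5 V X a haut _ _ _ _ _ _ _ hfil1).2.1 (-𝒜.M.h (s 0))
    simp only [sh_sh] at this
    rw [show -𝒜.M.h (s 0) + 𝒜.M.h (s 0) = 0 by ring,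
      show -𝒜.M.h (s 0) + (𝒜.M.h (s 0) + 𝒜₁.M.h r) = 𝒜₁.M.h r by ring] at this
    simp only [sh_zero] at this
    rw [(hlab r).2.2.2.1, (hlab r').2.2.2.1, (hlab r).2.2.2.2, (hlab r').2.2.2.2, hqr, hqr', hWdef]
    exact this
  have r2pos := T1.pz
  have r0pos := T0.px
  have W0 : W 0 = kap X ((a ^ (𝒜₁.M.h r + 𝒜₁.M.h r')) (𝒜₁.M.f (𝒜₁.M.φ r'))) := by
    rw [hWdef]
    change sh a _ (if (0 : ℝ) ≤ 𝒜.ℓ (s 2) then _ else _) = _
    rw [if_pos r2pos.le, hok.e0, sh_kap haut hconn, sh_kap haut hconn, zpow_zpow,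
      ← zpow_zpow (𝒜₁.M.h r), key r', hqr', zpow_zpow]
    congr 3
    ring
  have WL : W (𝒜.ℓ (s 0) + 𝒜.ℓ (s 2)) = kap X (𝒜₁.M.f r) := by
    rw [hWdef]
    change sh a _ (if 𝒜.ℓ (s 0) + 𝒜.ℓ (s 2) ≤ 𝒜.ℓ (s 2) then _ else _) = _
    rw [if_neg (by linarith)]
    have e1 := hok.eι (s 0) 0 le_rfl r0pos.le
    rw [sub_zero, hok.e0, sh_kap haut hconn, 𝒜.M.tgt] at e1
    rw [add_sub_cancel_right, ← e1, sh_kap haut hconn, zpow_zpow, (hlab r).2.1, hqr]
    simp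
  have Wlip : ∀ t t', 0 ≤ t → t ≤ 𝒜.ℓ (s 0) + 𝒜.ℓ (s 2) → 0 ≤ t' →
      t' ≤ 𝒜.ℓ (s 0) + 𝒜.ℓ (s 2) → ∀ z, |W t z - W t' z| ≤ C * |t - t'| := by
    intro t t' h1 h2 h3 h4 z
    rw [hWdef]
    exact hlip t t' h1 h2 h3 h4 _
  have TL' : Tr (𝒜₁.ℓ r) (𝒜₁.ℓ r') (𝒜.ℓ (s 0) + 𝒜.ℓ (s 2)) := by
    rw [(hlab r).2.2.2.1, (hlab r').2.2.2.1, hqr, hqr']
    exact TL
  obtain ⟨ℓ', e', l1, l2, l3, hMA⟩ := cut_MA h5 haut hconn hcut hok₁ _ W TL' hW W0 WL Wlip
  -- membership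
  have hmemP : ∀ x, x ∈ 𝒜.P ↔ x = 𝒜.M.ι (s 0) ∨ x = o ∨ x ∈ rest := by
    intro x
    rw [← hrot.mem_iff]
    simp
  have hmr : ∀ x, x ∈ rest₁ ↔ q x ∈ rest := by
    intro x
    rw [← hrest]
    constructor
    · exact fun h => List.mem_map_of_mem h
    · intro h
      obtain ⟨y, hy, hyx⟩ := List.mem_map.1 h
      rwa [← qinj hyx]
  have hmQ : ∀ x, x ∈ 𝒜₁.Q ↔ q x ∈ 𝒜.Q := by
    intro x
    rw [← hQm]
    constructor
    · exact fun h => List.mem_map_of_mem h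
    · intro h
      obtain ⟨y, hy, hyx⟩ := List.mem_map.1 h
      rwa [← qinj hyx]
  have hface : 𝒜.M.IsFace (𝒜.M.ι (s 0) :: o :: rest) := face_isRot hann.faceP hrot.symm
  have hsmem : ∀ j, j ≤ 2 → 𝒜.M.SameV o (s j) := fun j hj => (hF.cls _).2 ⟨j, hj, rfl⟩
  -- the vertex of a dart `x` of the middle annulus
  have hvert : ∀ x, (∀ b, M'.SameV (j x) b → b ∉ annB (n :: rest₁.map j) (𝒜₁.Q.map j)) →
      (∀ y, 𝒜₁.M.SameV x y → y ≠ r ∧ y ∉ rest₁ ∧ y ∉ 𝒜₁.Q) ∧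
      (∀ b, 𝒜.M.SameV (q x) b → b = 𝒜.M.ι (s 1) ∨ ∃ y, q y = b) := by
    intro x hx
    have c1 : ∀ y, 𝒜₁.M.SameV x y → y ≠ r ∧ y ∉ rest₁ ∧ y ∉ 𝒜₁.Q := by
      intro y hy
      have h3 := hx (j y) ((hsm x y).2 hy)
      rw [cut_annB hcut] at h3
      push Not at h3
      refine ⟨?_, h3.1, h3.2⟩
      rintro rfl
      exact hx n (M'.sameV_trans ((hsm x y).2 hy) (M'.sameV_symm hsn)) (Or.inl (by simp))
    refine ⟨c1, ?_⟩
    have d0 : ¬ 𝒜.M.SameV (q x) (𝒜.M.ι (s 0)) := by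
      intro h
      have h4 : 𝒜.M.SameV (q x) (q r) := by
        rw [hqr]
        exact 𝒜.M.sameV_trans h (𝒜.M.sameV_symm (𝒜.M.sameV_step (s 0)))
      exact (c1 r ((hsame x r).2 h4)).1 rfl
    have d2 : ¬ 𝒜.M.SameV (q x) (𝒜.M.ι (s 2)) := by
      rw [hF.last]
      intro h
      have h2 : 𝒜.M.SameV (q x) (𝒜.M.φ o) :=
        𝒜.M.sameV_trans h (𝒜.M.sameV_symm (𝒜.M.sameV_step o))
      have h3 : 𝒜.M.φ o ∈ 𝒜.M.ι (s 0) :: o :: rest := face_mem hface (by simp)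
      rcases List.mem_cons.1 h3 with h4 | h4
      · rw [h4] at h2
        exact d0 h2
      · rcases List.mem_cons.1 h4 with h5 | h5
        · exact hoo h5
        · rw [← hrest] at h5
          obtain ⟨y, hy, hyx⟩ := List.mem_map.1 h5
          rw [← hyx] at h2
          exact (c1 y ((hsame x y).2 h2)).2.1 hy
    intro b hb
    by_cases hb1 : b = 𝒜.M.ι (s 1)
    · exact Or.inl hb1
    refine Or.inr ((qrng b).2 ?_)
    intro j hj
    constructor
    · rintro rfl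
      have h2 : 𝒜.M.SameV o (q x) := 𝒜.M.sameV_trans (hsmem j hj) (𝒜.M.sameV_symm hb)
      obtain ⟨j', hj', hjj⟩ := (hF.cls _).1 h2
      exact ((qrng (q x)).1 ⟨x, rfl⟩ j' hj').1 hjj.symm
    · rintro rfl
      have : j = 0 ∨ j = 1 ∨ j = 2 := by omega
      rcases this with rfl | rfl | rfl
      · exact d0 hb
      · exact hb1 rfl
      · exact d2 hb
  have hq0 : ∀ y, y ∉ rest₁ → y ∉ 𝒜₁.Q → q y ∉ annB 𝒜.P 𝒜.Q := by
    intro y hy1 hy2 h
    have hr := (qrng (q y)).1 ⟨y, rfl⟩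
    rcases h with h | h
    · rcases (hmemP _).1 h with h | h | h
      · exact (hr 0 (by omega)).2 h
      · exact (hr 2 le_rfl).1 (h.trans hF.last.symm)
      · exact hy1 ((hmr y).2 h)
    · exact hy2 ((hmQ y).2 h)
  have hι1 : 𝒜.M.ι (s 1) ∉ annB 𝒜.P 𝒜.Q := by
    rw [ιs1]; exact hB2 0 (by norm_num)
  have hq1 : ∀ x, 𝒜.M.SameV (q x) (𝒜.M.ι (s 1)) ↔ 𝒜₁.M.SameV x r' := by
    intro x
    rw [hsame, hqr']
    constructor
    · exact fun h => 𝒜.M.sameV_trans h (𝒜.M.sameV_symm (𝒜.M.sameV_step (s 1)))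
    · exact fun h => 𝒜.M.sameV_trans h (𝒜.M.sameV_step (s 1))
  have hnotq : ¬ ∃ y, q y = 𝒜.M.ι (s 1) := by
    rw [qrng]
    intro h
    exact (h 1 (by norm_num)).2 rfl
  obtain ⟨g1, g2⟩ := cut_φr hcut hann₁.faceP
  have hth' : M'.th ℓ' (j r') = 𝒜.M.th 𝒜.ℓ (𝒜.M.ι (s 1)) + 𝒜.M.th 𝒜.ℓ (q r') := by
    unfold DMap.th
    rw [g2, hφn', l1, l1, l3, hqr', (hlab r').2.2.2.1, (hlab r).2.2.2.1, hqr, hqr', ιs1,
      t0.1.1, t1.1.1, lr1, lr2]
    exact hangle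
  have hcurv : ∀ x, (∀ b, M'.SameV (j x) b → b ∉ annB (n :: rest₁.map j) (𝒜₁.Q.map j)) →
      M'.curv ℓ' (annB (n :: rest₁.map j) (𝒜₁.Q.map j)) (j x) =
        𝒜.M.curv 𝒜.ℓ (annB 𝒜.P 𝒜.Q) (q x) := by
    intro x hx
    obtain ⟨c1, c2⟩ := hvert x hx
    unfold DMap.curv
    congr 1
    have S1 := Fintype.sum_of_injective j jinj
      (fun y => if 𝒜₁.M.SameV x y then
        M'.wt ℓ' (annB (n :: rest₁.map j) (𝒜₁.Q.map j)) (j y) else 0)
      (fun d => if M'.SameV (j x) d then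
        M'.wt ℓ' (annB (n :: rest₁.map j) (𝒜₁.Q.map j)) d else 0)
      (by
        intro d hd
        rw [if_neg]
        intro h
        rcases hall d with rfl | rfl | ⟨y, rfl⟩
        · exact hx _ h (Or.inl (by simp))
        · have h1 := (hsm _ _).1 (M'.sameV_trans h hsn')
          obtain ⟨d1, d2, d3⟩ := c1 _ h1
          have h2 : 𝒜₁.M.φ (𝒜₁.M.φ r) ∈ r :: r' :: rest₁ :=
            face_mem hann₁.faceP (face_mem hann₁.faceP (by simp))
          simp only [List.mem_cons, d1, d2, or_false, false_or] at h2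
          rw [← er] at h2
          have := 𝒜₁.M.φ.injective h2
          rw [er] at this
          exact hrr this.symm
        · exact hd ⟨y, rfl⟩)
      (by
        intro y
        simp only [hsm])
    have S2 := Fintype.sum_of_injective (fun y : Option 𝒜₁.D => y.elim (𝒜.M.ι (s 1)) q)
      (by
        rintro (_ | y) (_ | z) h
        · rfl
        · exact absurd ⟨z, h.symm⟩ hnotq
        · exact absurd ⟨y, h⟩ hnotq
        · exact congrArg some (qinj h))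
      (fun y => if 𝒜.M.SameV (q x) (y.elim (𝒜.M.ι (s 1)) q) then
        𝒜.M.wt 𝒜.ℓ (annB 𝒜.P 𝒜.Q) (y.elim (𝒜.M.ι (s 1)) q) else 0)
      (fun b => if 𝒜.M.SameV (q x) b then 𝒜.M.wt 𝒜.ℓ (annB 𝒜.P 𝒜.Q) b else 0)
      (by
        intro b hb
        rw [if_neg]
        intro h
        rcases c2 b h with h1 | ⟨y, h1⟩
        · exact hb ⟨none, h1.symm⟩
        · exact hb ⟨some y, h1⟩)
      (fun y => rfl)
    rw [← S1, ← S2, Fintype.sum_option]
    have S3 : ∀ y, (if 𝒜₁.M.SameV x y then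
        M'.wt ℓ' (annB (n :: rest₁.map j) (𝒜₁.Q.map j)) (j y) else 0) =
        (if 𝒜.M.SameV (q x) (q y) then 𝒜.M.wt 𝒜.ℓ (annB 𝒜.P 𝒜.Q) (q y) else 0) +
        (if y = r' then (if 𝒜.M.SameV (q x) (𝒜.M.ι (s 1)) then
          𝒜.M.wt 𝒜.ℓ (annB 𝒜.P 𝒜.Q) (𝒜.M.ι (s 1)) else 0) else 0) := by
      intro y
      by_cases hy : 𝒜₁.M.SameV x y
      · obtain ⟨d1, d2, d3⟩ := c1 y hy
        have hjy : j y ∉ annB (n :: rest₁.map j) (𝒜₁.Q.map j) := by
          rw [cut_annB hcut]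
          push Not
          exact ⟨d2, d3⟩
        rw [if_pos hy, if_pos ((hsame x y).1 hy)]
        unfold DMap.wt
        rw [if_neg hjy, if_neg (hq0 y d2 d3), if_neg hι1]
        by_cases hyr : y = r'
        · rw [if_pos hyr, if_pos ((hq1 x).2 (hyr ▸ hy)), hyr, hth']
          ring
        · rw [if_neg hyr, add_zero]
          have hyA : y ∉ annB (r :: r' :: rest₁) 𝒜₁.Q := by
            rintro (h | h)
            · simp only [List.mem_cons, d1, hyr, d2, or_false] at h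
            · exact d3 h
          obtain ⟨k1, k2, -, k4, k5⟩ := cut_out hcut hann₁ hyA
          have o1 := hout y (by rw [hP₁]; exact fun h => hyA (Or.inl h))
          have o2 := hout (𝒜₁.M.φ y) (by rw [hP₁]; exact fun h => k4 (Or.inl h))
          unfold DMap.th
          rw [k1, k2, l1, l1, l1, (hlab y).2.2.2.1, (hlab _).2.2.2.1, (hlab _).2.2.2.1,
            o2.1, o1.1]
      · rw [if_neg hy, if_neg (fun h => hy ((hsame x y).2 h))]
        by_cases hyr : y = r'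
        · rw [if_pos hyr, if_neg]
          · simp
          · rw [hq1]
            exact fun h => hy (hyr ▸ h)
        · rw [if_neg hyr, add_zero]
    simp only [S3, Finset.sum_add_distrib, Finset.sum_ite_eq', Finset.mem_univ, if_true]
    rw [add_comm]
    rfl
  have hnpc : ∀ d, (∀ b, M'.SameV d b → b ∉ annB (n :: rest₁.map j) (𝒜₁.Q.map j)) →
      M'.curv ℓ' (annB (n :: rest₁.map j) (𝒜₁.Q.map j)) d ≤ 0 := by
    intro d hd
    have main : ∀ x, (∀ b, M'.SameV (j x) b →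
        b ∉ annB (n :: rest₁.map j) (𝒜₁.Q.map j)) →
        M'.curv ℓ' (annB (n :: rest₁.map j) (𝒜₁.Q.map j)) (j x) ≤ 0 := by
      intro x hx
      rw [hcurv x hx]
      obtain ⟨c1, c2⟩ := hvert x hx
      apply hok.npc
      intro b hb
      rcases c2 b hb with rfl | ⟨y, rfl⟩
      · exact hι1
      · obtain ⟨-, d2, d3⟩ := c1 y ((hsame x y).2 hb)
        exact hq0 y d2 d3
    rcases hall d with rfl | rfl | ⟨x, rfl⟩
    · exact absurd (Or.inl (by simp)) (hd _ (M'.sameV_refl _))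
    · have e1 : M'.curv ℓ' (annB (n :: rest₁.map j) (𝒜₁.Q.map j)) d =
          M'.curv ℓ' (annB (n :: rest₁.map j) (𝒜₁.Q.map j)) (j (𝒜₁.M.φ (𝒜₁.M.φ r))) := by
        unfold DMap.curv
        congr 1
        apply Finset.sum_congr rfl
        intro b _
        have : M'.SameV d b ↔ M'.SameV (j (𝒜₁.M.φ (𝒜₁.M.φ r))) b :=
          ⟨fun h => M'.sameV_trans (M'.sameV_symm hsn') h, fun h => M'.sameV_trans hsn' h⟩
        simp only [this]
      rw [e1]
      exact main _ (fun b hb => hd b (M'.sameV_trans hsn' hb))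
    · exact main x hd
  specialize hMA hnpc
  -- counting
  have hcard' : Fintype.card D' = Fintype.card 𝒜₁.D + 2 := by
    have hbij : Function.Bijective (fun y : Option (Option 𝒜₁.D) =>
        y.elim n (fun z => z.elim n' j)) := by
      constructor
      · rintro (_ | _ | y) (_ | _ | z) h
        · rfl
        · exact absurd h hne
        · exact absurd h.symm (hran z).1
        · exact absurd h.symm hne
        · rfl
        · exact absurd h.symm (hran z).2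
        · exact absurd h (hran y).1
        · exact absurd h (hran y).2
        · exact congrArg (fun t => some (some t)) (jinj h)
      · intro d
        rcases hall d with rfl | rfl | ⟨x, rfl⟩
        · exact ⟨none, rfl⟩
        · exact ⟨some none, rfl⟩
        · exact ⟨some (some x), rfl⟩
    have := Fintype.card_of_bijective hbij
    rw [← this, Fintype.card_option, Fintype.card_option]
  have hlenP : 𝒜.P.length = rest₁.length + 2 := by
    rw [← hrot.perm.length_eq, ← hrest]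
    simp
  have hlenQ : 𝒜₁.Q.length = 𝒜.Q.length := by
    rw [← hQm, List.length_map]
  have hbig : 𝒜.P.length + 𝒜.Q.length + 1 ≤ Fintype.card 𝒜.D := by
    have hnd : (s 0 :: (𝒜.P ++ 𝒜.Q)).Nodup := by
      rw [List.nodup_cons]
      refine ⟨?_, ?_⟩
      · intro h
        rcases List.mem_append.1 h with h | h
        · exact hF.tri 0 (by norm_num) (Or.inl h)
        · exact hF.tri 0 (by norm_num) (Or.inr h)
      · rw [List.nodup_append]
        refine ⟨hann.faceP.2.1, hann.faceQ.2.1, ?_⟩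
        rintro x hx y hy rfl
        exact hann.disj x hx hy
    have := hnd.length_le_card
    simpa using this
  refine ⟨⟨D', fD', M', n :: rest₁.map j, 𝒜₁.Q.map j, 𝒜₁.ε, ℓ', e', hMA⟩, ⟨?_, ?_⟩,
    Or.inl ?_, ?_⟩
  · change ((n :: rest₁.map j).map ℓ').sum ≤ K
    have e1 : (𝒜.P.map 𝒜.ℓ).sum = ((𝒜.M.ι (s 0) :: o :: rest).map 𝒜.ℓ).sum :=
      ((hrot.perm.map 𝒜.ℓ).sum_eq).symm
    have e2 : rest₁.map (ℓ' ∘ j) = rest₁.map (𝒜.ℓ ∘ q) :=
      List.map_congr_left (fun x _ => by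
        rw [Function.comp_apply, Function.comp_apply, l1, (hlab x).2.2.2.1])
    have e3 := hK.1
    rw [e1, ← hrest] at e3
    simp only [List.map_cons, List.sum_cons, List.map_map] at e3 ⊢
    rw [e2, l2]
    rw [hok.lenok.2.1, ← hF.last] at e3
    linarith
  · change ((𝒜₁.Q.map j).map ℓ').sum ≤ K
    have e2 : 𝒜₁.Q.map (ℓ' ∘ j) = 𝒜₁.Q.map (𝒜.ℓ ∘ q) :=
      List.map_congr_left (fun x _ => by
        rw [Function.comp_apply, Function.comp_apply, l1, (hlab x).2.2.2.1])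
    have e3 := hK.2
    rw [← hQm, List.map_map] at e3
    rw [List.map_map, e2]
    exact e3
  · change Fintype.card D' - ((n :: rest₁.map j).length + (𝒜₁.Q.map j).length) <
      Fintype.card 𝒜.D - (𝒜.P.length + 𝒜.Q.length)
    rw [List.length_cons, List.length_map, List.length_map, hlenQ, hlenP, hcard']
    rw [hlenP] at hbig
    omega
  · intro hgood p hp p' hp'
    have g1 := (h6 V X a C K K' hyp 𝒜 hK).1 p hp (𝒜.M.ι (s 0)) hi
      (-𝒜.M.h (s 0) + 𝒜.M.γ (s 0))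
    have e1 : (a ^ (-𝒜.M.h (s 0) + 𝒜.M.γ (s 0))) (𝒜.M.f (𝒜.M.ι (s 0))) =
        𝒜.M.f (𝒜.M.φ (s 0)) := by
      rw [← zpow_zpow, 𝒜.M.tgt, zpow_zpow]
      simp
    rw [e1] at g1
    rw [← hQm] at hp'
    obtain ⟨y, hy, rfl⟩ := List.mem_map.1 hp'
    have g2 := hgood n (by simp) (j y) (List.mem_map_of_mem hy)
    change CY X a K' (M'.f n) (M'.f (j y)) at g2
    rw [hfn, (hlab r).2.1, hqr, (hlb y).1, (hlab y).2.1] at g2
    exact cy_trans g1 g2

end MSG.H23
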